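import Pool.Agent.Y913.LW

/-!
The Lang-Waldschmidt problem for prime bases, uniformly in the exponent vector: for every exponent
vector `b`, however large, at most `C Y ^ θ` tuples of distinct primes up to `Y` have
`|P (a, b) - 1| ≤ Y ^ (-K)`; if `max |b_j| ≥ Y ^ L`, the Lang-Waldschmidt inequality itself fails for
at most `C Y ^ θ` such tuples.
-/

set_option autoImplicit false

namespace Pool.Agent.Results.MP_e07dae_nt.PrimeBasesUniform

/-- `P (a, b) = a_1 ^ b_1 ⋯ a_n ^ b_n` -/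
noncomputable def P {n : ℕ} (a : Fin n → ℕ) (b : Fin n → ℤ) : ℝ := ∏ j, (a j : ℝ) ^ (b j)

/-- `H (a, b) = |b_1 ⋯ b_n a_1 ⋯ a_n|` -/
def H {n : ℕ} (a : Fin n → ℕ) (b : Fin n → ℤ) : ℕ := ∏ j, ((b j).natAbs * a j)

/-- `max |b_j|` -/
def maxExp {n : ℕ} (b : Fin n → ℤ) : ℕ := Finset.univ.sup fun j => (b j).natAbs

/-- the `n`-tuples of distinct primes up to `Y` -/
def bases (n : ℕ) (Y : ℝ) : Set (Fin n → ℕ) :=
  {a | Function.Injective a ∧ ∀ j, (a j).Prime ∧ (a j : ℝ) ≤ Y}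

/-- those with `|P (a, b) - 1| ≤ Y ^ (-K)` -/
def near {n : ℕ} (b : Fin n → ℤ) (K Y : ℝ) : Set (Fin n → ℕ) :=
  {a | a ∈ bases n Y ∧ |P a b - 1| ≤ Y ^ (-K)}

/-- those for which the Lang-Waldschmidt inequality with `ε` and the constant `c` fails -/
def fails {n : ℕ} (b : Fin n → ℤ) (ε c Y : ℝ) : Set (Fin n → ℕ) :=
  {a | a ∈ bases n Y ∧ |P a b - 1| < c * maxExp b / (H a b : ℝ) ^ (1 + ε)}

theorem bases_finite (n : ℕ) (Y : ℝ) : (bases n Y).Finite := by
  refine Set.Finite.subset (Finset.finite_toSet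
    (Fintype.piFinset fun _ : Fin n => Finset.range (⌊Y⌋₊ + 1))) ?_
  intro a ha
  rw [Finset.mem_coe, Fintype.mem_piFinset]
  intro j
  rw [Finset.mem_range, Nat.lt_succ_iff]
  exact Nat.le_floor (ha.2 j).2

/-- **Main theorem.** -/
theorem result (n : ℕ) (hn : 1 ≤ n) (ε c θ : ℝ) (hε : 0 < ε) (hc : 0 < c) (hθ : 0 < θ) :
    ∃ K L C : ℝ, 0 < K ∧ 0 < L ∧ 0 < C ∧ ∀ Y : ℝ, 1 ≤ Y → ∀ b : Fin n → ℤ, (∀ j, b j ≠ 0) →
      (near b K Y).Finite ∧ ((near b K Y).ncard : ℝ) ≤ C * Y ^ θ ∧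
      (Y ^ L ≤ (maxExp b : ℝ) →
        (fails b ε c Y).Finite ∧ ((fails b ε c Y).ncard : ℝ) ≤ C * Y ^ θ) := by
  obtain ⟨K, C, hK, hC, h⟩ := Pool.Agent.Y913.lw_count n θ hθ
  have hfin : ∀ (b : Fin n → ℤ) (Y : ℝ), (near b K Y).Finite := fun b Y =>
    (bases_finite n Y).subset fun a ha => ha.1
  have hfinF : ∀ (b : Fin n → ℤ) (Y : ℝ), (fails b ε c Y).Finite := fun b Y =>
    (bases_finite n Y).subset fun a ha => ha.1
  have hcard : ∀ Y : ℝ, 1 ≤ Y → ∀ b : Fin n → ℤ, (∀ j, b j ≠ 0) →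
      ((near b K Y).ncard : ℝ) ≤ C * Y ^ θ := by
    intro Y hY b hb
    rw [Set.ncard_eq_toFinset_card _ (hfin b Y)]
    refine h Y hY b hb _ fun a ha => ?_
    rw [Set.Finite.mem_toFinset] at ha
    exact ⟨ha.1.1, ha.1.2, ha.2⟩
  refine ⟨K, (K + c) / ε, C, hK, by positivity, hC, fun Y hY b hb =>
    ⟨hfin b Y, hcard Y hY b hb, fun hbY => ⟨hfinF b Y, ?_⟩⟩⟩
  refine le_trans ?_ (hcard Y hY b hb)
  have hsub : fails b ε c Y ⊆ near b K Y := by
    rintro a ⟨ha, hf⟩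
    refine ⟨ha, hf.le.trans ?_⟩
    have hY2 : (2 : ℝ) ≤ Y := by
      have h1 := ha.2 ⟨0, hn⟩
      have h2 : (2 : ℝ) ≤ a ⟨0, hn⟩ := by exact_mod_cast h1.1.two_le
      linarith [h1.2]
    have hY0 : 0 < Y := by linarith
    obtain ⟨m, hm⟩ : ∃ m : ℝ, m = (maxExp b : ℝ) := ⟨_, rfl⟩
    have hm1 : 1 ≤ m := by
      rw [hm]
      refine le_trans ?_ hbY
      exact Real.one_le_rpow hY (by positivity)
    have hm0 : 0 < m := by linarith
    have hmH : m ≤ (H a b : ℝ) := by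
      obtain ⟨j, _, hj⟩ := Finset.exists_mem_eq_sup (Finset.univ : Finset (Fin n))
        ⟨⟨0, hn⟩, Finset.mem_univ _⟩ fun j => (b j).natAbs
      have h1 : maxExp b ≤ H a b := by
        unfold maxExp H
        rw [hj]
        have hpos : ∀ i, 0 < (b i).natAbs * a i := fun i =>
          Nat.mul_pos (Int.natAbs_pos.2 (hb i)) (ha.2 i).1.pos
        calc (b j).natAbs ≤ (b j).natAbs * a j := Nat.le_mul_of_pos_right _ (ha.2 j).1.pos
          _ ≤ ∏ i, ((b i).natAbs * a i) :=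
            Nat.le_of_dvd (Finset.prod_pos fun i _ => hpos i)
              (Finset.dvd_prod_of_mem _ (Finset.mem_univ j))
      rw [hm]
      exact_mod_cast h1
    rw [← hm] at hbY ⊢
    have h1 : m ^ (1 + ε) ≤ (H a b : ℝ) ^ (1 + ε) :=
      Real.rpow_le_rpow hm0.le hmH (by linarith)
    have h2 : c * m / (H a b : ℝ) ^ (1 + ε) ≤ c * m / m ^ (1 + ε) := by
      apply div_le_div_of_nonneg_left (by positivity) (by positivity) h1
    refine h2.trans ?_
    have e0 : c * m / m ^ (1 + ε) = c / m ^ ε := by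
      rw [Real.rpow_add hm0, Real.rpow_one]
      field_simp
    rw [e0]
    have h3 : Y ^ (K + c) ≤ m ^ ε := by
      calc Y ^ (K + c) = (Y ^ ((K + c) / ε)) ^ ε := by
            rw [← Real.rpow_mul hY0.le]
            congr 1
            field_simp
        _ ≤ m ^ ε := Real.rpow_le_rpow (by positivity) hbY hε.le
    have h4 : c ≤ Y ^ c := by
      calc c ≤ Real.exp (c * Real.log 2) := by
            have e2 : 0.6931471803 < Real.log 2 := Real.log_two_gt_d9
            have e3 := Real.quadratic_le_exp_of_nonneg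
              (by positivity : 0 ≤ c * Real.log 2)
            have e4 : 1 / 2 * c ≤ c * Real.log 2 := by nlinarith
            have e5 : 0 ≤ c * Real.log 2 := by positivity
            nlinarith [sq_nonneg (c * Real.log 2 - 1)]
        _ = (2 : ℝ) ^ c := by
            rw [Real.rpow_def_of_pos (by norm_num)]
            congr 1
            ring
        _ ≤ Y ^ c := Real.rpow_le_rpow (by norm_num) hY2 hc.le
    rw [div_le_iff₀ (by positivity)]
    calc c ≤ Y ^ c := h4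
      _ = Y ^ (-K) * Y ^ (K + c) := by
          rw [← Real.rpow_add hY0]
          congr 1
          ring
      _ ≤ Y ^ (-K) * m ^ ε := mul_le_mul_of_nonneg_left h3 (by positivity)
  exact_mod_cast Set.ncard_le_ncard hsub (hfin b Y)

end Pool.Agent.Results.MP_e07dae_nt.PrimeBasesUniform
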