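import Pool.Agent.Results.MP_e07dae_nt.SquareRootBases
import Pool.Agent.Y854.GM.Win

/-!
# The Lang-Waldschmidt inequality without exceptions in short windows around thin sequences

Let `v ≥ 1` be a sequence with exponent of convergence at most `τ` (for `v_k = k ^ κ` this is `1 / κ`, for `v_k = b ^ k`
or `k!` it is `0`), `n ≥ 1`, `σ ≥ 0` and `0 ≤ θ < 1`. For all `α > 0` outside a set of Hausdorff dimension at most
`(1/2 + n σ + τ) / (1 - θ)` and all but finitely many `k` the inequality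
`|P(a, b) - 1| ≥ (1/2) max |b_j| / H(a, b)` (no loss in the exponent) holds for ALL tuples `a` of `n` positive integers
with `|a_1 ⋯ a_n - α v_k| ≤ v_k ^ θ` and ALL tuples `b` of nonzero integers with `|b_j| ≤ (a_1 ⋯ a_n) ^ σ`.
-/

set_option autoImplicit false

namespace Pool.Agent.Results.MP_e07dae_nt.WindowsWithoutExceptions

open Finset

/-- the exponent of convergence of the sequence `v` is at most `τ` -/
def ExpLe (v : ℕ → ℝ) (τ : ℝ) : Prop := ∀ t : ℝ, τ < t → Summable (fun n : ℕ => (v n) ^ (-t))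

/-- `P(a, b) = a_1 ^ b_1 ... a_n ^ b_n`. -/
noncomputable def P {n : ℕ} (a : Fin n → ℕ) (b : Fin n → ℤ) : ℝ := ∏ i, (a i : ℝ) ^ b i

/-- `H(a, b) = |b_1 ... b_n a_1 ... a_n|`. -/
def H {n : ℕ} (a : Fin n → ℕ) (b : Fin n → ℤ) : ℕ := ∏ i, (b i).natAbs * a i

/-- `max |b_j|`. -/
def maxExp {n : ℕ} (b : Fin n → ℤ) : ℕ := univ.sup fun i => (b i).natAbs

/-- the exceptional tuples `a`, for exponents at most `(a_1 ⋯ a_n) ^ σ` -/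
def Exc (n : ℕ) (σ : ℝ) : Set (Fin n → ℕ) :=
  {a | (∀ i, 1 ≤ a i) ∧ ∃ b : Fin n → ℤ, (∀ i, b i ≠ 0) ∧ (∀ i, |(b i : ℝ)| ≤ ((∏ j, a j : ℕ) : ℝ) ^ σ) ∧
    |P a b - 1| < 1 / 2 * (maxExp b : ℝ) / (H a b : ℝ)}

open Classical in
lemma count (n : ℕ) (hn : 1 ≤ n) (σ : ℝ) (hσ : 0 ≤ σ) (ε : ℝ) (hε : 0 < ε) : ∃ K : ℝ, ∀ X : ℝ, 1 ≤ X →
    {a | a ∈ Exc n σ ∧ ((∏ j, a j : ℕ) : ℝ) ≤ X}.Finite ∧
      ({a | a ∈ Exc n σ ∧ ((∏ j, a j : ℕ) : ℝ) ≤ X}.ncard : ℝ) ≤ K * X ^ (1 / 2 + n * σ + ε) := by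
  obtain ⟨C, hC0, hC⟩ := SquareRootBases.result n hn ε hε
  refine ⟨C * 3 ^ n, fun X hX => ?_⟩
  have hX0 : 0 < X := by linarith
  have hN1 : 1 ≤ ⌊X⌋₊ := Nat.le_floor (by exact_mod_cast hX)
  have hNX : ((⌊X⌋₊ : ℕ) : ℝ) ≤ X := Nat.floor_le hX0.le
  set R : ℤ := ⌊X ^ σ⌋ with hR
  have hXσ : 1 ≤ X ^ σ := Real.one_le_rpow hX hσ
  have hR1 : 1 ≤ R := Int.le_floor.2 (by exact_mod_cast hXσ)
  set B : Finset (Fin n → ℤ) := (Fintype.piFinset fun _ => Icc (-R) R).filter (fun b => ∀ i, b i ≠ 0) with hB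
  have hB0 : ∀ b ∈ B, ∀ i, b i ≠ 0 := fun b hb => (mem_filter.1 hb).2
  obtain ⟨hfin, hcard⟩ := hC ⌊X⌋₊ hN1 0 le_rfl B hB0
  have hsub : {a | a ∈ Exc n σ ∧ ((∏ j, a j : ℕ) : ℝ) ≤ X} ⊆ SquareRootBases.Exceptional ⌊X⌋₊ 0 B := by
    rintro a ⟨⟨ha, b, hb0, hb1, hf⟩, haX⟩
    refine ⟨ha, Nat.le_floor haX, b, ?_, ?_⟩
    · rw [hB, mem_filter, Fintype.mem_piFinset]
      refine ⟨fun i => ?_, hb0⟩
      have h1 : |(b i : ℝ)| ≤ X ^ σ :=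
        (hb1 i).trans (Real.rpow_le_rpow (Nat.cast_nonneg _) haX hσ)
      rw [abs_le] at h1
      rw [mem_Icc]
      constructor
      · rw [neg_le]
        apply Int.le_floor.2
        push_cast
        linarith [h1.1]
      · exact Int.le_floor.2 h1.2
    · unfold SquareRootBases.Fails
      rw [add_zero, Real.rpow_one]
      exact hf
  refine ⟨hfin.subset hsub, ?_⟩
  have h1 : ({a | a ∈ Exc n σ ∧ ((∏ j, a j : ℕ) : ℝ) ≤ X}.ncard : ℝ) ≤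
      ((SquareRootBases.Exceptional ⌊X⌋₊ 0 B).ncard : ℝ) := by
    exact_mod_cast Set.ncard_le_ncard hsub hfin
  have h2 : (B.card : ℝ) ≤ 3 ^ n * X ^ (n * σ) := by
    have h3 : B.card ≤ (Fintype.piFinset fun _ : Fin n => Icc (-R) R).card := card_filter_le _ _
    rw [Fintype.card_piFinset, prod_const, card_univ, Fintype.card_fin, Int.card_Icc] at h3
    have h4 : (((R + 1 - -R).toNat : ℕ) : ℝ) ≤ 3 * X ^ σ := by
      have h5 : (((R + 1 - -R).toNat : ℕ) : ℤ) = 2 * R + 1 := by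
        rw [Int.toNat_of_nonneg (by linarith)]
        ring
      have h6 : (((R + 1 - -R).toNat : ℕ) : ℝ) = 2 * (R : ℝ) + 1 := by exact_mod_cast h5
      rw [h6]
      have h7 : (R : ℝ) ≤ X ^ σ := Int.floor_le _
      linarith
    calc (B.card : ℝ) ≤ ((((R + 1 - -R).toNat) ^ n : ℕ) : ℝ) := by exact_mod_cast h3
      _ = (((R + 1 - -R).toNat : ℕ) : ℝ) ^ n := by push_cast; ring
      _ ≤ (3 * X ^ σ) ^ n := pow_le_pow_left₀ (Nat.cast_nonneg _) h4 n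
      _ = 3 ^ n * X ^ (n * σ) := by
          rw [mul_pow, ← Real.rpow_natCast (X ^ σ) n, ← Real.rpow_mul hX0.le, mul_comm σ (n : ℝ)]
  have h8 : ((⌊X⌋₊ : ℕ) : ℝ) ^ ((1 : ℝ) / 2 + ε) ≤ X ^ ((1 : ℝ) / 2 + ε) :=
    Real.rpow_le_rpow (Nat.cast_nonneg _) hNX (by positivity)
  calc ({a | a ∈ Exc n σ ∧ ((∏ j, a j : ℕ) : ℝ) ≤ X}.ncard : ℝ)
      ≤ C * (B.card : ℝ) * ((⌊X⌋₊ : ℕ) : ℝ) ^ ((1 : ℝ) / 2 + ε) := h1.trans hcard
    _ ≤ C * (3 ^ n * X ^ (n * σ)) * X ^ ((1 : ℝ) / 2 + ε) := by gcongr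
    _ = C * 3 ^ n * X ^ (1 / 2 + n * σ + ε) := by
        have h9 : X ^ ((1 : ℝ) / 2 + n * σ + ε) = X ^ (n * σ) * X ^ ((1 : ℝ) / 2 + ε) := by
          rw [← Real.rpow_add hX0]
          congr 1
          ring
        rw [h9]
        ring

/-- **Theorem.** Let `v ≥ 1` be a sequence of exponent of convergence at most `τ ≥ 0`, `0 ≤ θ < 1`, `n ≥ 1` and
`σ ≥ 0`. There is a set `E` of Hausdorff dimension at most `(1/2 + n σ + τ) / (1 - θ)` such that for each `α > 0`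
outside `E`, for all but finitely many `k`, `|P(a, b) - 1| ≥ (1/2) max |b_j| / H(a, b)` for all tuples `a` of `n`
positive integers with `|a_1 ⋯ a_n - α v_k| ≤ v_k ^ θ` and all tuples `b` of nonzero integers with
`|b_j| ≤ (a_1 ⋯ a_n) ^ σ`. The sequences `v_k = (k + 1) ^ κ` and `v_k = b ^ k` have exponent of convergence at most
`1 / κ` and `0`. -/
theorem result :
    (∀ (n : ℕ) (v : ℕ → ℝ) (τ θ σ : ℝ), 1 ≤ n → (∀ k, 1 ≤ v k) → 0 ≤ τ → ExpLe v τ → 0 ≤ θ → θ < 1 → 0 ≤ σ →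
      ∃ E : Set ℝ, dimH E ≤ ENNReal.ofReal ((1 / 2 + n * σ + τ) / (1 - θ)) ∧ ∀ α : ℝ, 0 < α → α ∉ E →
        ∃ k₀ : ℕ, ∀ k : ℕ, k₀ ≤ k → ∀ a : Fin n → ℕ, (∀ i, 1 ≤ a i) →
          |((∏ i, a i : ℕ) : ℝ) - α * v k| ≤ (v k) ^ θ →
          ∀ b : Fin n → ℤ, (∀ i, b i ≠ 0) → (∀ i, |(b i : ℝ)| ≤ ((∏ j, a j : ℕ) : ℝ) ^ σ) →
            1 / 2 * (maxExp b : ℝ) / (H a b : ℝ) ≤ |P a b - 1|) ∧
    (∀ κ : ℝ, 0 < κ → ExpLe (fun n : ℕ => ((n : ℝ) + 1) ^ κ) (1 / κ)) ∧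
    (∀ b : ℝ, 1 < b → ExpLe (fun n : ℕ => b ^ n) 0) := by
  refine ⟨fun n v τ θ σ hn hv hτ hE hθ hθ1 hσ => ?_, fun κ hκ => Pool.Agent.Y854.GM.expLe_pow κ hκ,
    fun b hb => Pool.Agent.Y854.GM.expLe_geom b hb⟩
  obtain ⟨E, h2, h3⟩ := Pool.Agent.Y854.GM.windows (Exc n σ) (fun a => ((∏ j, a j : ℕ) : ℝ)) hv hτ hE
    (s := 1 / 2 + n * σ) (by positivity) hθ1 (count n hn σ hσ)
  refine ⟨E, h2, fun α hα hαE => ?_⟩
  obtain ⟨k₀, hk⟩ := h3 α hα hαE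
  refine ⟨k₀, fun k hk1 a ha hw b hb0 hb1 => ?_⟩
  by_contra hcon
  push Not at hcon
  exact absurd (hk k hk1 a ⟨ha, b, hb0, hb1, hcon⟩) (not_lt.2 hw)

end Pool.Agent.Results.MP_e07dae_nt.WindowsWithoutExceptions
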